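import Pool.Agent.N237.MD.CBStm

set_option autoImplicit false

open Finset
open scoped ComplexOrder ComplexConjugate

noncomputable section

universe u

namespace Pool.Agent.N645.CB

open Pool.Agent.N237.MD

section Diag

variable {H : Type} [NormedAddCommGroup H] [InnerProductSpace ℂ H]

/-- diagonalisation of the one-body operator `∑ v x |x⟩⟨x|` -/
theorem diag (v : H →₀ ℝ) : ∃ (d : ℕ) (e : Fin d → H) (lam : Fin d → ℝ), Orthonormal ℂ e ∧
    (∀ x ∈ v.support, x = ∑ k, (inner ℂ (e k) x : ℂ) • e k) ∧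
    ∀ k l, ∑ x ∈ v.support, ((v x : ℝ) : ℂ) * (inner ℂ (e k) x * inner ℂ x (e l)) =
      if k = l then ((lam l : ℝ) : ℂ) else 0 := by
  classical
  set V : Submodule ℂ H := Submodule.span ℂ (v.support : Set H) with hV
  have : FiniteDimensional ℂ V := FiniteDimensional.span_finset ℂ _
  have hmem : ∀ x ∈ v.support, x ∈ V := fun x hx => Submodule.subset_span (by exact_mod_cast hx)
  set T₀ : H →ₗ[ℂ] H := ∑ x ∈ v.support, ((v x : ℝ) : ℂ) • (innerₛₗ ℂ x).smulRight x with hT₀
  have hT₀a : ∀ y, T₀ y = ∑ x ∈ v.support, ((v x : ℝ) : ℂ) • ((inner ℂ x y : ℂ) • x) := by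
    intro y
    rw [hT₀, LinearMap.sum_apply]
    rfl
  have hT₀V : ∀ y ∈ V, T₀ y ∈ V := by
    intro y _
    rw [hT₀a]
    exact Submodule.sum_mem _ fun x hx => Submodule.smul_mem _ _ (Submodule.smul_mem _ _ (hmem x hx))
  set T : V →ₗ[ℂ] V := T₀.restrict hT₀V with hT
  have hTa : ∀ y : V, ((T y : V) : H) = ∑ x ∈ v.support, ((v x : ℝ) : ℂ) • ((inner ℂ x (y : H) : ℂ) • x) := by
    intro y
    rw [hT, LinearMap.coe_restrict_apply, hT₀a]
  have hsym : T.IsSymmetric := by
    intro y z
    rw [Submodule.coe_inner, Submodule.coe_inner, hTa, hTa, sum_inner, inner_sum]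
    refine sum_congr rfl fun x _ => ?_
    rw [inner_smul_left, inner_smul_left, inner_smul_right, inner_smul_right, Complex.conj_ofReal,
      inner_conj_symm]
    ring
  have hd : Module.finrank ℂ V = Module.finrank ℂ V := rfl
  set b := hsym.eigenvectorBasis hd with hb
  refine ⟨Module.finrank ℂ V, fun j => ((b j : V) : H), hsym.eigenvalues hd, ?_, ?_, ?_⟩
  · exact b.orthonormal.comp_linearIsometry V.subtypeₗᵢ
  · intro x hx
    have h1 := b.sum_repr' ⟨x, hmem x hx⟩
    have h2 := congrArg (fun y : V => (y : H)) h1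
    simp only [Submodule.coe_sum, Submodule.coe_smul, Submodule.coe_inner] at h2
    exact h2.symm
  · intro k l
    have h1 : T (b l) = ((hsym.eigenvalues hd l : ℝ) : ℂ) • b l := hsym.apply_eigenvectorBasis hd l
    have h2 : (inner ℂ ((b k : V) : H) ((T (b l) : V) : H) : ℂ) =
        ((hsym.eigenvalues hd l : ℝ) : ℂ) * inner ℂ ((b k : V) : H) ((b l : V) : H) := by
      rw [h1, Submodule.coe_smul, inner_smul_right]
    have h3 : (inner ℂ ((b k : V) : H) ((b l : V) : H) : ℂ) = if k = l then 1 else 0 := by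
      rw [← Submodule.coe_inner]
      exact orthonormal_iff_ite.1 b.orthonormal k l
    rw [h3, hTa, inner_sum] at h2
    rw [mul_ite, mul_one, mul_zero] at h2
    rw [← h2]
    refine sum_congr rfl fun x _ => ?_
    rw [inner_smul_right, inner_smul_right]
    ring

theorem diag_sum {Z : Type*} [AddCommGroup Z] [Module ℂ Z] (Ψ : H → H → Z)
    (hadd1 : ∀ x x' y, Ψ (x + x') y = Ψ x y + Ψ x' y) (hadd2 : ∀ x y y', Ψ x (y + y') = Ψ x y + Ψ x y')
    (hsm1 : ∀ (a : ℂ) x y, Ψ (a • x) y = a • Ψ x y) (hsm2 : ∀ (a : ℂ) x y, Ψ x (a • y) = conj a • Ψ x y)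
    (v : H →₀ ℝ) {d : ℕ} {e : Fin d → H} {lam : Fin d → ℝ}
    (h1 : ∀ x ∈ v.support, x = ∑ k, (inner ℂ (e k) x : ℂ) • e k)
    (h2 : ∀ k l, ∑ x ∈ v.support, ((v x : ℝ) : ℂ) * (inner ℂ (e k) x * inner ℂ x (e l)) =
      if k = l then ((lam l : ℝ) : ℂ) else 0) :
    ∑ x ∈ v.support, ((v x : ℝ) : ℂ) • Ψ x x = ∑ j, ((lam j : ℝ) : ℂ) • Ψ (e j) (e j) := by
  classical
  let Ψ₂ : H →ₗ[ℂ] H →ₛₗ[starRingEnd ℂ] Z :=
    LinearMap.mk₂'ₛₗ (RingHom.id ℂ) (starRingEnd ℂ) Ψ hadd1 hsm1 hadd2 hsm2
  have hΨ₂ : ∀ x y, Ψ₂ x y = Ψ x y := fun x y => rfl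
  have h3 : ∀ x ∈ v.support, Ψ x x = ∑ k, ∑ l, ((inner ℂ (e k) x : ℂ) * inner ℂ x (e l)) • Ψ (e k) (e l) := by
    intro x hx
    have h4 : Ψ x x = Ψ₂ (∑ k, (inner ℂ (e k) x : ℂ) • e k) (∑ l, (inner ℂ (e l) x : ℂ) • e l) := by
      rw [← h1 x hx, hΨ₂]
    rw [h4, map_sum Ψ₂, LinearMap.sum_apply]
    refine sum_congr rfl fun k _ => ?_
    rw [map_sum]
    refine sum_congr rfl fun l _ => ?_
    rw [hΨ₂, hsm1, hsm2, smul_smul, inner_conj_symm]
  calc ∑ x ∈ v.support, ((v x : ℝ) : ℂ) • Ψ x x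
      = ∑ x ∈ v.support, ∑ k, ∑ l, (((v x : ℝ) : ℂ) * ((inner ℂ (e k) x : ℂ) * inner ℂ x (e l))) •
          Ψ (e k) (e l) := by
        refine sum_congr rfl fun x hx => ?_
        rw [h3 x hx, smul_sum]
        refine sum_congr rfl fun k _ => ?_
        rw [smul_sum]
        refine sum_congr rfl fun l _ => ?_
        rw [smul_smul]
    _ = ∑ k, ∑ l, (∑ x ∈ v.support, ((v x : ℝ) : ℂ) * ((inner ℂ (e k) x : ℂ) * inner ℂ x (e l))) •
          Ψ (e k) (e l) := by
        rw [sum_comm]
        refine sum_congr rfl fun k _ => ?_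
        rw [sum_comm]
        refine sum_congr rfl fun l _ => ?_
        rw [sum_smul]
    _ = ∑ k, ∑ l, (if k = l then ((lam l : ℝ) : ℂ) else 0) • Ψ (e k) (e l) := by
        refine sum_congr rfl fun k _ => sum_congr rfl fun l _ => ?_
        rw [h2]
    _ = _ := by
        refine sum_congr rfl fun k _ => ?_
        rw [sum_eq_single k]
        · rw [if_pos rfl]
        · intro l _ hl
          rw [if_neg (Ne.symm hl), zero_smul]
        · intro hk
          exact absurd (mem_univ k) hk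

end Diag

section Pos

variable {H : Type} [NormedAddCommGroup H] [InnerProductSpace ℂ H] {A : Type u} [CStarAlgebra A] [Nontrivial A]
  {c : H →ₗ[ℂ] A}

/-- the finite sums -/
def Phi (c : H →ₗ[ℂ] A) (a : ℝ) (v : H →₀ ℝ) : A :=
  ((a : ℝ) : ℂ) • (1 : A) + ∑ x ∈ v.support, ((v x : ℝ) : ℂ) • (c x * star (c x))

theorem pos [CompleteSpace H] [PartialOrder A] [StarOrderedRing A] (hc : IsCAR c) {B : H →L[ℂ] H}
    (hB : B.IsPositive) (hB1 : ‖B‖ ≤ 1) (a : ℝ) (v : H →₀ ℝ) (hp : 0 ≤ Phi c a v) :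
    0 ≤ a + ∑ x ∈ v.support, v x * (inner ℂ x (B x) : ℂ).re := by
  classical
  obtain ⟨d, e, lam, he, h1, h2⟩ := diag v
  have hX : Phi c a v = ((a : ℝ) : ℂ) • (1 : A) + ∑ j, ((lam j : ℝ) : ℂ) • (c (e j) * star (c (e j))) := by
    unfold Phi
    rw [diag_sum (fun x y => c x * star (c y)) (fun x x' y => by simp only [map_add, add_mul])
      (fun x y y' => by simp only [map_add, star_add, mul_add])
      (fun a x y => by simp only [map_smul, smul_mul_assoc])
      (fun a x y => by simp only [map_smul, star_smul, mul_smul_comm]; rfl) v h1 h2]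
  have hY : ∑ x ∈ v.support, ((v x : ℝ) : ℂ) • (inner ℂ x (B x) : ℂ) =
      ∑ j, ((lam j : ℝ) : ℂ) • (inner ℂ (e j) (B (e j)) : ℂ) := by
    refine diag_sum (fun x y => (inner ℂ y (B x) : ℂ)) (fun x x' y => by simp only [map_add, inner_add_right])
      (fun x y y' => by simp only [inner_add_left])
      (fun a x y => by simp only [map_smul, inner_smul_right, smul_eq_mul])
      (fun a x y => by simp only [inner_smul_left, smul_eq_mul]) v h1 h2
  have hY' : ∑ x ∈ v.support, v x * (inner ℂ x (B x) : ℂ).re =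
      ∑ j, lam j * (inner ℂ (e j) (B (e j)) : ℂ).re := by
    have := congrArg Complex.re hY
    simpa only [Complex.re_sum, smul_eq_mul, Complex.re_ofReal_mul] using this
  obtain ⟨q, hq0, -, hq⟩ := hc.exists_q he (fun j => lam j < 0) univ
  set r : ℝ := a + ∑ j, if lam j < 0 then lam j else 0 with hr
  have hXq : Phi c a v * q = ((r : ℝ) : ℂ) • q := by
    rw [hX, add_mul, sum_mul, smul_mul_assoc, one_mul, hr, Complex.ofReal_add, add_smul, Complex.ofReal_sum,
      sum_smul]
    congr 1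
    refine sum_congr rfl fun j _ => ?_
    rw [smul_mul_assoc, hq j (mem_univ j)]
    split_ifs
    · rfl
    · simp
  have hr0 : 0 ≤ r := by
    by_contra hneg
    push Not at hneg
    have h3 : 0 ≤ star q * Phi c a v * q := star_left_conjugate_nonneg hp q
    rw [mul_assoc, hXq, mul_smul_comm] at h3
    have h4 : 0 ≤ star q * q := star_mul_self_nonneg q
    have h5 : ((r : ℝ) : ℂ) • (star q * q) ≤ 0 := by
      have h6 : 0 ≤ (((-r : ℝ)) : ℂ) • (star q * q) := by
        have h7 : 0 ≤ (-r) • (star q * q) := smul_nonneg (by linarith) h4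
        convert h7 using 1
        exact Complex.coe_smul (-r) (star q * q)
      rw [Complex.ofReal_neg, neg_smul] at h6
      exact neg_nonneg.1 h6
    have h8 := le_antisymm h5 h3
    rcases smul_eq_zero.1 h8 with h9 | h9
    · rw [Complex.ofReal_eq_zero] at h9
      exact hneg.ne h9
    · exact hq0 (CStarRing.star_mul_self_eq_zero_iff q |>.1 h9)
  have hB0 : ∀ j, 0 ≤ (inner ℂ (e j) (B (e j)) : ℂ).re := fun j => hB.re_inner_nonneg_right (e j)
  have hB2 : ∀ j, (inner ℂ (e j) (B (e j)) : ℂ).re ≤ 1 := by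
    intro j
    have h3 : ‖(inner ℂ (e j) (B (e j)) : ℂ)‖ ≤ ‖e j‖ * ‖B (e j)‖ := norm_inner_le_norm _ _
    have h4 : ‖B (e j)‖ ≤ ‖B‖ * ‖e j‖ := B.le_opNorm _
    rw [he.1 j] at h3 h4
    have h5 := Complex.re_le_norm (inner ℂ (e j) (B (e j)) : ℂ)
    linarith
  rw [hY']
  have h3 : (∑ j, if lam j < 0 then lam j else 0) ≤ ∑ j, lam j * (inner ℂ (e j) (B (e j)) : ℂ).re := by
    refine sum_le_sum fun j _ => ?_
    split_ifs with hj
    · nlinarith [hB0 j, hB2 j]
    · exact mul_nonneg (not_lt.1 hj) (hB0 j)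
  linarith

/-- `Phi` as a real linear map -/
def PhiL (c : H →ₗ[ℂ] A) : (ℝ × (H →₀ ℝ)) →ₗ[ℝ] A :=
  (LinearMap.toSpanSingleton ℝ A 1).coprod (Finsupp.linearCombination ℝ (fun x : H => c x * star (c x)))

lemma PhiL_apply (c : H →ₗ[ℂ] A) (p : ℝ × (H →₀ ℝ)) : PhiL c p = Phi c p.1 p.2 := by
  unfold PhiL Phi
  rw [LinearMap.coprod_apply, LinearMap.toSpanSingleton_apply, Finsupp.linearCombination_apply, Finsupp.sum]
  congr 1

/-- the functional -/
def glL (B : H →L[ℂ] H) : (ℝ × (H →₀ ℝ)) →ₗ[ℝ] ℝ :=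
  (LinearMap.id).coprod (Finsupp.linearCombination ℝ (fun x : H => (inner ℂ x (B x) : ℂ).re))

lemma glL_apply (B : H →L[ℂ] H) (p : ℝ × (H →₀ ℝ)) :
    glL B p = p.1 + ∑ x ∈ p.2.support, p.2 x * (inner ℂ x (B x) : ℂ).re := by
  unfold glL
  rw [LinearMap.coprod_apply, Finsupp.linearCombination_apply, Finsupp.sum]
  rfl

/-- the cone of the elements with nonnegative real part -/
def cone (A : Type u) [CStarAlgebra A] [PartialOrder A] [StarOrderedRing A] : PointedCone ℝ A where
  carrier := {x | 0 ≤ x + star x}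
  add_mem' := by
    intro x y hx hy
    have : x + y + star (x + y) = (x + star x) + (y + star y) := by rw [star_add]; abel
    show 0 ≤ x + y + star (x + y)
    rw [this]
    exact add_nonneg hx hy
  zero_mem' := by
    show (0 : A) ≤ 0 + star 0
    simp
  smul_mem' := by
    intro t x hx
    show 0 ≤ t • x + star (t • x)
    have h1 : t • x + star (t • x) = (t : ℝ) • (x + star x) := by
      rw [smul_add]
      congr 1
      exact star_smul (t : ℝ) x |>.trans (by simp)
    rw [h1]
    exact smul_nonneg t.2 hx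

lemma mem_cone {A : Type u} [CStarAlgebra A] [PartialOrder A] [StarOrderedRing A] (x : A) :
    x ∈ cone A ↔ 0 ≤ x + star x := Iff.rfl

lemma Phi_sa (a : ℝ) (v : H →₀ ℝ) : star (Phi c a v) = Phi c a v := by
  unfold Phi
  rw [star_add, star_smul, star_one, star_sum]
  congr 1
  · congr 1
    exact Complex.conj_ofReal a
  · refine sum_congr rfl fun x _ => ?_
    rw [star_smul, star_mul, star_star]
    congr 1
    exact Complex.conj_ofReal _

theorem exists_g [CompleteSpace H] [PartialOrder A] [StarOrderedRing A] (hc : IsCAR c) {B : H →L[ℂ] H}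
    (hB : B.IsPositive) (hB1 : ‖B‖ ≤ 1) :
    ∃ g : A →ₗ[ℝ] ℝ, (∀ p, g (PhiL c p) = glL B p) ∧ ∀ x : A, 0 ≤ x + star x → 0 ≤ g x := by
  classical
  have hpos : ∀ p, 0 ≤ PhiL c p → 0 ≤ glL B p := by
    intro p hp
    rw [PhiL_apply] at hp
    rw [glL_apply]
    exact pos hc hB hB1 _ _ hp
  have hker : glL B ∈ (LinearMap.ker (PhiL c)).dualAnnihilator := by
    rw [Submodule.mem_dualAnnihilator]
    intro p hp
    rw [LinearMap.mem_ker] at hp
    have h1 := hpos p hp.ge
    have h2 := hpos (-p) (by rw [map_neg, hp, neg_zero])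
    rw [map_neg] at h2
    linarith
  rw [← LinearMap.range_dualMap_eq_dualAnnihilator_ker, LinearMap.mem_range] at hker
  obtain ⟨g0, hg0⟩ := hker
  have hg0' : ∀ p, g0 (PhiL c p) = glL B p := fun p => by rw [← hg0]; rfl
  let f : A →ₗ.[ℝ] ℝ := ⟨LinearMap.range (PhiL c), g0.domRestrict (LinearMap.range (PhiL c))⟩
  have hf : ∀ x : f.domain, f x = g0 (x : A) := fun x => rfl
  obtain ⟨g, hg1, hg2⟩ := riesz_extension (cone A) f
    (by
      rintro ⟨x, hx⟩ hx2
      obtain ⟨p, rfl⟩ := hx
      rw [hf, hg0']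
      apply hpos
      rw [mem_cone] at hx2
      have h1 : star (PhiL c p) = PhiL c p := by rw [PhiL_apply]; exact Phi_sa _ _
      rw [h1, ← two_smul ℝ] at hx2
      have h2 := smul_nonneg (by norm_num : (0 : ℝ) ≤ 1 / 2) hx2
      rw [smul_smul] at h2
      norm_num at h2
      exact h2)
    (by
      intro y
      refine ⟨⟨PhiL c (‖y‖, 0), LinearMap.mem_range_self _ _⟩, ?_⟩
      show 0 ≤ PhiL c (‖y‖, 0) + y + star (PhiL c (‖y‖, 0) + y)
      have h1 : PhiL c (‖y‖, 0) = algebraMap ℝ A ‖y‖ := by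
        rw [Algebra.algebraMap_eq_smul_one]
        unfold PhiL
        rw [LinearMap.coprod_apply, LinearMap.toSpanSingleton_apply, map_zero, add_zero]
      have h2 : star (PhiL c (‖y‖, 0)) = PhiL c (‖y‖, 0) := by rw [PhiL_apply]; exact Phi_sa _ _
      have h3 : IsSelfAdjoint (y + star y) := IsSelfAdjoint.add_star_self y
      have h4 := h3.neg_algebraMap_norm_le_self
      have h5 : ‖y + star y‖ ≤ ‖y‖ + ‖y‖ := (norm_add_le _ _).trans (by rw [norm_star])
      have h6 : algebraMap ℝ A ‖y + star y‖ ≤ algebraMap ℝ A (‖y‖ + ‖y‖) := by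
        rw [Algebra.algebraMap_eq_smul_one, Algebra.algebraMap_eq_smul_one]
        exact smul_le_smul_of_nonneg_right h5 zero_le_one
      have h7 : PhiL c (‖y‖, 0) + y + star (PhiL c (‖y‖, 0) + y) =
          algebraMap ℝ A (‖y‖ + ‖y‖) + (y + star y) := by
        rw [star_add, h2, h1, map_add]
        abel
      rw [h7]
      have h8 : -(y + star y) ≤ algebraMap ℝ A (‖y‖ + ‖y‖) := (neg_le.1 h4).trans h6
      exact neg_le_iff_add_nonneg.1 h8)
  refine ⟨g, fun p => ?_, fun x hx => hg2 x hx⟩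
  rw [← hg0']
  exact hg1 ⟨PhiL c p, LinearMap.mem_range_self _ _⟩

end Pos

/-- CB/1 -/
theorem state : S_STATE.{u} := by
  intro H _ _ _ A _ _ c hc B hB hB1
  letI : PartialOrder A := CStarAlgebra.spectralOrder A
  have : StarOrderedRing A := CStarAlgebra.spectralOrderedRing A
  obtain ⟨g, hg1, hg2⟩ := exists_g hc hB hB1
  have hgt : ∀ t : ℝ, g (t • (1 : A)) = t := by
    intro t
    have h1 := hg1 (t, 0)
    have h2 : PhiL c (t, 0) = t • (1 : A) := by
      unfold PhiL
      rw [LinearMap.coprod_apply, LinearMap.toSpanSingleton_apply, map_zero, add_zero]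
    have h3 : glL B (t, 0) = t := by
      rw [glL_apply]
      simp
    rw [h2, h3] at h1
    exact h1
  have hgone : g 1 = 1 := by
    have := hgt 1
    rwa [one_smul] at this
  have hskew : ∀ x : A, star x = -x → g x = 0 := by
    intro x hx
    have h1 := hg2 x (by rw [hx, add_neg_cancel])
    have h2 := hg2 (-x) (by rw [star_neg, hx, neg_neg, neg_add_cancel])
    rw [map_neg] at h2
    linarith
  have hcone : ∀ y : A, 0 ≤ (‖y‖ • (1 : A) + y) + star (‖y‖ • (1 : A) + y) := by
    intro y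
    have h3 : IsSelfAdjoint (y + star y) := IsSelfAdjoint.add_star_self y
    have h4 := h3.neg_algebraMap_norm_le_self
    have h5 : ‖y + star y‖ ≤ ‖y‖ + ‖y‖ := (norm_add_le _ _).trans (by rw [norm_star])
    have h6 : algebraMap ℝ A ‖y + star y‖ ≤ algebraMap ℝ A (‖y‖ + ‖y‖) := by
      rw [Algebra.algebraMap_eq_smul_one, Algebra.algebraMap_eq_smul_one]
      exact smul_le_smul_of_nonneg_right h5 zero_le_one
    have h7 : (‖y‖ • (1 : A) + y) + star (‖y‖ • (1 : A) + y) =
        algebraMap ℝ A (‖y‖ + ‖y‖) + (y + star y) := by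
      rw [star_add, star_smul, star_one, Algebra.algebraMap_eq_smul_one, add_smul]
      simp only [star_trivial]
      abel
    rw [h7]
    have h8 : -(y + star y) ≤ algebraMap ℝ A (‖y‖ + ‖y‖) := (neg_le.1 h4).trans h6
    exact neg_le_iff_add_nonneg.1 h8
  have hbd : ∀ y : A, ‖g y‖ ≤ 1 * ‖y‖ := by
    intro y
    rw [one_mul, Real.norm_eq_abs, abs_le]
    have h1 := hg2 _ (hcone y)
    have h2 := hg2 _ (hcone (-y))
    rw [map_add, hgt] at h1 h2
    rw [map_neg, norm_neg] at h2
    constructor <;> linarith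
  set fr : StrongDual ℝ A := g.mkContinuous 1 hbd with hfr
  have hfra : ∀ x, fr x = g x := fun x => rfl
  have hρ : ∀ x : A, (fr.extendRCLike : A →L[ℂ] ℂ) x = (g x : ℂ) - Complex.I * (g (Complex.I • x) : ℂ) := by
    intro x
    rw [StrongDual.extendRCLike_apply]
    rfl
  have hρsa : ∀ x : A, star x = x → (fr.extendRCLike : A →L[ℂ] ℂ) x = (g x : ℂ) := by
    intro x hx
    rw [hρ, hskew (Complex.I • x), Complex.ofReal_zero, mul_zero, sub_zero]
    rw [star_smul, hx]
    have : star Complex.I = -Complex.I := Complex.conj_I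
    rw [this, neg_smul]
  refine ⟨fr.extendRCLike, ?_, ?_, ?_⟩
  · intro x
    rw [hρsa _ (by rw [star_mul, star_star])]
    have h1 : 0 ≤ g (star x * x) := by
      apply hg2
      rw [star_mul, star_star]
      exact add_nonneg (star_mul_self_nonneg x) (star_mul_self_nonneg x)
    exact_mod_cast h1
  · rw [hρsa _ (star_one A), hgone, Complex.ofReal_one]
  · have hdiag : ∀ x : H, (fr.extendRCLike : A →L[ℂ] ℂ) (c x * star (c x)) = inner ℂ x (B x) := by
      intro x
      rw [hρsa _ (by rw [star_mul, star_star])]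
      have h1 := hg1 (0, Finsupp.single x 1)
      have h2 : PhiL c (0, Finsupp.single x 1) = c x * star (c x) := by
        unfold PhiL
        rw [LinearMap.coprod_apply, LinearMap.toSpanSingleton_apply, zero_smul, zero_add,
          Finsupp.linearCombination_single, one_smul]
      have h3 : glL B (0, Finsupp.single x 1) = (inner ℂ x (B x) : ℂ).re := by
        unfold glL
        rw [LinearMap.coprod_apply, Finsupp.linearCombination_single, one_smul]
        simp
      rw [h2, h3] at h1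
      rw [h1]
      have h4 : (inner ℂ x (B x) : ℂ).im = 0 := by
        have h5 : conj (inner ℂ x (B x) : ℂ) = inner ℂ x (B x) := by
          rw [inner_conj_symm]
          exact hB.isSymmetric x x
        exact Complex.conj_eq_iff_im.1 h5
      apply Complex.ext
      · simp
      · simp [h4]
    set F : H → H → ℂ := fun x y => (fr.extendRCLike : A →L[ℂ] ℂ) (c x * star (c y)) - inner ℂ y (B x) with hF
    have hFd : ∀ x, F x x = 0 := fun x => by rw [hF]; exact sub_eq_zero.2 (hdiag x)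
    have hF1 : ∀ x x' y, F (x + x') y = F x y + F x' y := by
      intro x x' y
      simp only [hF, map_add, add_mul, inner_add_right]
      ring
    have hF2 : ∀ x y y', F x (y + y') = F x y + F x y' := by
      intro x y y'
      simp only [hF, map_add, star_add, mul_add, inner_add_left]
      ring
    have hF3 : ∀ (a : ℂ) x y, F (a • x) y = a * F x y := by
      intro a x y
      simp only [hF, map_smul, smul_mul_assoc, inner_smul_right, smul_eq_mul]
      ring
    have hF4 : ∀ (a : ℂ) x y, F x (a • y) = conj a * F x y := by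
      intro a x y
      have h1 : c x * star (c (a • y)) = conj a • (c x * star (c y)) := by
        rw [map_smul, star_smul, mul_smul_comm]
        rfl
      simp only [hF]
      rw [h1, map_smul, inner_smul_left, smul_eq_mul]
      ring
    intro x y
    have h1 : F x y + F y x = 0 := by
      have := hFd (x + y)
      rw [hF1, hF2, hF2, hFd, hFd] at this
      linear_combination this
    have h2 : F x y - F y x = 0 := by
      have := hFd (x + Complex.I • y)
      rw [hF1, hF2, hF2, hFd, hF3, hF3, hF4, hF4, hFd, Complex.conj_I] at this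
      linear_combination Complex.I * this + (F x y - F y x) * Complex.I_sq
    have h3 : F x y = 0 := by linear_combination (1 / 2 : ℂ) * h1 + (1 / 2 : ℂ) * h2
    exact sub_eq_zero.1 h3

end Pool.Agent.N645.CB
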